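import Mathlib
import Pool.Agent.X238.Ami.Main

set_option autoImplicit false

/-!
# The amiable semigroups avoiding `F` do not form a quasivariety

Let `S` be the semigroup of all partial maps `θ` of the natural numbers (composed from left to
right) whose domain is a finite disjoint union of pairs `{k, k+1}`, which are constant on each of
these pairs, take distinct and pairwise non-consecutive values on distinct pairs, and satisfy
`θ(x) ≤ x`. Two elements are `𝓛*`-related iff they have the same image and `𝓡*`-related iff they
have the same kernel, and each class contains exactly one idempotent: `S` is amiable. It avoids `F`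
since the elements of `a S` have their domains in the finite domain of `a`. For every `n` it
contains idempotents `a`, `b` (round down to an even / odd number, restricted to `[0, 2n+1]`)
all of whose alternating products with at most `n` factors are distinct; hence the countable power
of `S` contains a copy of `F`.
-/

namespace Pool.Agent.Results.MP_e1ef61_al.NotQuasivariety

open Pool.Agent.X238.Ami

universe u

/-- There is an amiable semigroup avoiding `F` whose countable direct power does not avoid `F`;
hence the class of amiable semigroups avoiding `F` is not axiomatisable by quasi-identities. -/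
theorem result :
    (∃ (S : Type u) (_ : BiUn S), InK S ∧ ¬ Avoids (ℕ → S) F) ∧
    ∀ Q : Set QId, ¬ ∀ (S : Type u) [BiUn S], InK S ↔ ∀ q ∈ Q, Sat S q := by
  refine ⟨⟨Elt.{u}, inferInstance, inK, not_avoids_pow⟩, ?_⟩
  intro Q hQ
  have h1 : ∀ q ∈ Q, Sat Elt.{u} q := (hQ Elt.{u}).1 inK
  have h2 : InK (ℕ → Elt.{u}) := (hQ (ℕ → Elt.{u})).2 fun q hq => (h1 q hq).pow ℕ
  exact not_avoids_pow h2.2.2.2

end Pool.Agent.Results.MP_e1ef61_al.NotQuasivariety
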